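import Pool.Agent.H44.HC3

open MeasureTheory Pool.Agent.H44.KCM
open scoped unitInterval

namespace Pool.Agent.Results.MP_6f5b46_pr.Q1False

theorem result : ∃ q : I, 0 < q ∧ q < 1 ∧ IsKCM fa4 1 ∧
    ∃ μ : Measure Conf, Stationary q fa4 μ ∧ ¬ Representable q fa4 μ := by
  have h0 : (0 : ℝ) < qq := by unfold qq; norm_num
  have h1 : qq < 1 := by unfold qq; norm_num
  refine ⟨⟨qq, h0.le, h1.le⟩, h0, h1, fa4_kcm, ?_⟩
  by_cases h : Representable ⟨qq, h0.le, h1.le⟩ fa4 (muL 0 : Measure Conf)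
  · exact ⟨_, muL_stat 1, fun h' => not_rep _ ⟨h, h'⟩⟩
  · exact ⟨_, muL_stat 0, h⟩

end Pool.Agent.Results.MP_6f5b46_pr.Q1False
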